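import Pool.Agent.Helper62.DB.Sm

/-!
# The double covers are smooth unions of two affine spaces
-/

set_option autoImplicit false

open CategoryTheory AlgebraicGeometry Pool.Agent.Helper62.EC

namespace Pool.Agent.Helper62.DB

open Pool.Agent.Y116.UV (aff affIso affMap)

variable {k D : Type} [CommRing k] [CommRing D] [Algebra k D] (F : D) {M : ℕ}
  (e : Polynomial D ≃ₐ[k] MvPolynomial (Fin M) k)

include e

lemma two_spaces0 : ∃ j₁ j₂ : aff k (MvPolynomial (Fin M) k) ⟶ aff k (Db F),
    IsOpenImmersion j₁.left ∧ IsOpenImmersion j₂.left ∧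
    Set.range j₁.left ∪ Set.range j₂.left = Set.univ := by
  have h4 : IsIso (affIso e).hom.left := inferInstance
  refine ⟨(affIso e).hom ≫ affMap ((chart₁ F).restrictScalars k),
    (affIso e).hom ≫ affMap ((chart₂ F).restrictScalars k), ?_, ?_, ?_⟩
  · rw [Over.comp_left]
    exact MorphismProperty.comp_mem @IsOpenImmersion _ _ inferInstance (open₁ F k)
  · rw [Over.comp_left]
    exact MorphismProperty.comp_mem @IsOpenImmersion _ _ inferInstance (open₂ F k)
  · have h3 : Function.Surjective (affIso e).hom.left :=
      (Scheme.homeoOfIso (asIso (affIso e).hom.left)).surjective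
    rw [Over.comp_left, Over.comp_left, Scheme.Hom.comp_base, TopCat.coe_comp, h3.range_comp,
      Scheme.Hom.comp_base, TopCat.coe_comp, h3.range_comp]
    exact cover₁₂ F k

lemma smooth0 : Smooth (aff k (Db F)).hom := by
  refine smooth_dbl F (R := k) ?_
  have h1 : Smooth (aff k (MvPolynomial (Fin M) k)).hom := by
    change Smooth (Spec.map (CommRingCat.ofHom (algebraMap k (MvPolynomial (Fin M) k))))
    rw [HasRingHomProperty.Spec_iff (P := @Smooth)]
    exact RingHom.smooth_algebraMap.mpr
      (⟨inferInstance, inferInstance⟩ : Algebra.Smooth k (MvPolynomial (Fin M) k))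
  have h2 : (aff k (Polynomial D)).hom = (affIso e).inv.left ≫
      (aff k (MvPolynomial (Fin M) k)).hom := (Over.w _).symm
  rw [h2]
  infer_instance

end Pool.Agent.Helper62.DB
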