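import Pool.Agent.Helper62.EC.Chart

/-!
# The double covers `t ^ 2 - t = y f` of affine spaces
-/

set_option autoImplicit false

open CategoryTheory AlgebraicGeometry Polynomial Pool.Agent.Y116.UV Pool.Agent.Helper62.EC

namespace Pool.Agent.Helper62.DB

section chart

variable {D : Type} [CommRing D] (f : D)

/-- the algebra `D[y, t] / (t ^ 2 - t - y f)` -/
abbrev Db : Type := AS 2 (yf f)

/-- the involution `t ↦ 1 - t` -/
noncomputable def inv0 : Db f →ₐ[D] Db f :=
  asLift (IsScalarTower.toAlgHom D D[X] (Db f)) (1 - rt 2 (yf f)) (by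
    have h := rt_rel 2 (yf f)
    change _ = algebraMap D[X] (Db f) (yf f)
    rw [← h]
    ring)

lemma inv0_rt : inv0 f (rt 2 (yf f)) = 1 - rt 2 (yf f) := asLift_rt _ _ _

lemma inv0_yy : inv0 f (yy 2 f) = yy 2 f := asLift_of _ _ _ _

lemma inv0_inv0 : (inv0 f).comp (inv0 f) = AlgHom.id D (Db f) := by
  apply as_ext
  · intro q
    have h1 : ((inv0 f).comp (inv0 f)).comp (IsScalarTower.toAlgHom D D[X] (Db f)) =
        IsScalarTower.toAlgHom D D[X] (Db f) := by
      apply Polynomial.algHom_ext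
      change inv0 f (inv0 f (yy 2 f)) = yy 2 f
      rw [inv0_yy, inv0_yy]
    exact DFunLike.congr_fun h1 q
  · change inv0 f (inv0 f (rt 2 (yf f))) = rt 2 (yf f)
    rw [inv0_rt, map_sub, map_one, inv0_rt]
    ring

/-- the involution `t ↦ 1 - t` -/
noncomputable def inv : Db f ≃ₐ[D] Db f :=
  AlgEquiv.ofAlgHom (inv0 f) (inv0 f) (inv0_inv0 f) (inv0_inv0 f)

/-- the chart `t = y' f` -/
noncomputable def chart₁ : Db f →ₐ[D] D[X] := chart 2 f le_rfl

/-- the chart `t = 1 - y' f` -/
noncomputable def chart₂ : Db f →ₐ[D] D[X] := (chart₁ f).comp (inv0 f)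

/-- the closed subscheme `t = 1`, `f = 0` -/
noncomputable def clo₁ : Db f →ₐ[D] Gf f :=
  asLift (aeval X) 1 (by
    have h1 : algebraMap D (Gf f) f = 0 := by
      have h2 : algebraMap D (Gf f) f = algebraMap (D ⧸ Ideal.span {f}) (Gf f)
        (algebraMap D (D ⧸ Ideal.span {f}) f) := rfl
      rw [h2]
      have h3 : algebraMap D (D ⧸ Ideal.span {f}) f = 0 :=
        Ideal.Quotient.eq_zero_iff_mem.2 (Ideal.mem_span_singleton_self f)
      rw [h3, map_zero]
    rw [one_pow, sub_self, yf, map_mul, aeval_C, h1, mul_zero])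

lemma clo₁_rt : clo₁ f (rt 2 (yf f)) = 1 := asLift_rt _ _ _

lemma clo₁_yy : clo₁ f (yy 2 f) = X := by
  rw [clo₁, yy, asLift_of, aeval_X]

lemma clo₁_surj : Function.Surjective (clo₁ f) := by
  intro q
  induction q using Polynomial.induction_on' with
  | add a b iha ihb =>
    obtain ⟨a', rfl⟩ := iha
    obtain ⟨b', rfl⟩ := ihb
    exact ⟨a' + b', map_add _ _ _⟩
  | monomial n a =>
    obtain ⟨a, rfl⟩ := Ideal.Quotient.mk_surjective a
    refine ⟨algebraMap D _ a * yy 2 f ^ n, ?_⟩
    rw [map_mul, AlgHom.commutes, map_pow, clo₁_yy, ← C_mul_X_pow_eq_monomial]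
    rfl

/-- the kernel -/
lemma clo₁_ker : RingHom.ker (clo₁ f : Db f →+* Gf f) = Ideal.span {s₁ 2 f, s₂ 2 f} := by
  apply le_antisymm
  · -- an inverse modulo the ideal
    intro a ha
    let J : Ideal (Db f) := Ideal.span {s₁ 2 f, s₂ 2 f}
    have h0 : (cloG0 2 f).comp (clo₁ f) = Ideal.Quotient.mkₐ D J := by
      apply as_ext
      · intro q
        have h2 : ((cloG0 2 f).comp (clo₁ f)).comp (IsScalarTower.toAlgHom D D[X] (Db f)) =
            (Ideal.Quotient.mkₐ D J).comp (IsScalarTower.toAlgHom D D[X] (Db f)) := by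
          apply Polynomial.algHom_ext
          change cloG0 2 f (clo₁ f (yy 2 f)) = Ideal.Quotient.mk _ (yy 2 f)
          rw [clo₁_yy, cloG0_X]
        exact DFunLike.congr_fun h2 q
      · change cloG0 2 f (clo₁ f (rt 2 (yf f))) = Ideal.Quotient.mk _ (rt 2 (yf f))
        rw [clo₁_rt, map_one, eq_comm, ← map_one (Ideal.Quotient.mk J), Ideal.Quotient.eq]
        exact Ideal.subset_span (by simp [s₁])
    have h1 := DFunLike.congr_fun h0 a
    change cloG0 2 f (clo₁ f a) = Ideal.Quotient.mk J a at h1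
    have h2 : clo₁ f a = 0 := ha
    rw [h2, map_zero] at h1
    exact Ideal.Quotient.eq_zero_iff_mem.1 h1.symm
  · rw [Ideal.span_le]
    rintro x (rfl | rfl)
    · change clo₁ f (rt 2 (yf f) ^ (2 - 1) - 1) = 0
      rw [map_sub, map_pow, clo₁_rt, one_pow, map_one, sub_self]
    · change clo₁ f (algebraMap D _ f) = 0
      rw [AlgHom.commutes]
      have h2 : algebraMap D (Gf f) f = algebraMap (D ⧸ Ideal.span {f}) (Gf f)
        (algebraMap D (D ⧸ Ideal.span {f}) f) := rfl
      have h3 : algebraMap D (D ⧸ Ideal.span {f}) f = 0 :=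
        Ideal.Quotient.eq_zero_iff_mem.2 (Ideal.mem_span_singleton_self f)
      rw [h2, h3, map_zero]

variable (R : Type) [CommRing R] [Algebra R D]

/-- the closed subscheme `t = 1, f = 0` and its complement, the affine space -/
theorem triple_dbl : IsTriple (affMap ((clo₁ f).restrictScalars R))
    (affMap ((chart₁ f).restrictScalars R)) :=
  triple_two (R := R) (φ := (chart₁ f).restrictScalars R) (s₁ := s₁ 2 f)
    (s₂ := s₂ 2 f) (chart_unit 2 f le_rfl) (loc₁ 2 f le_rfl) (loc₂ 2 f le_rfl)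
    ((clo₁ f).restrictScalars R) (clo₁_surj f) (clo₁_ker f)

lemma open₁ : IsOpenImmersion (affMap ((chart₁ f).restrictScalars R)).left :=
  (triple_dbl f R).opened

lemma range₁ : Set.range (affMap ((chart₁ f).restrictScalars R)).left =
    {x : PrimeSpectrum (Db f) | s₁ 2 f ∉ x.asIdeal ∨ s₂ 2 f ∉ x.asIdeal} :=
  range_two (φ := (chart₁ f).restrictScalars R) (chart_unit 2 f le_rfl) (loc₁ 2 f le_rfl)
    (loc₂ 2 f le_rfl)

lemma chart₂_eq : affMap ((chart₂ f).restrictScalars R) =
    affMap ((chart₁ f).restrictScalars R) ≫ (affIso ((inv f).restrictScalars R)).hom := by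
  change _ = _ ≫ affMap _
  rw [← affMap_comp]
  rfl

lemma open₂ : IsOpenImmersion (affMap ((chart₂ f).restrictScalars R)).left := by
  rw [chart₂_eq, Over.comp_left]
  have h1 := open₁ f R
  have h2 : IsIso (affIso ((inv f).restrictScalars R)).hom.left := inferInstance
  infer_instance

/-- The two charts cover the scheme. -/
theorem cover₁₂ : Set.range (affMap ((chart₁ f).restrictScalars R)).left ∪
    Set.range (affMap ((chart₂ f).restrictScalars R)).left = Set.univ := by
  rw [Set.eq_univ_iff_forall]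
  intro x
  by_cases h : x ∈ Set.range (affMap ((chart₁ f).restrictScalars R)).left
  · exact Or.inl h
  · right
    rw [range₁] at h
    have h' : ¬ (s₁ 2 f ∉ PrimeSpectrum.asIdeal x ∨ s₂ 2 f ∉ PrimeSpectrum.asIdeal x) := h
    push Not at h'
    -- the image under the involution is in the first chart
    let x' : PrimeSpectrum (Db f) := PrimeSpectrum.comap (inv0 f : Db f →+* Db f) x
    have h1 : x' ∈ Set.range (affMap ((chart₁ f).restrictScalars R)).left := by
      rw [range₁]
      left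
      intro h2
      have h3 : inv0 f (s₁ 2 f) ∈ PrimeSpectrum.asIdeal x := h2
      have h4 : s₁ 2 f = rt 2 (yf f) ^ (2 - 1) - 1 := rfl
      rw [h4, map_sub, map_pow, inv0_rt, map_one] at h3
      have h5 : (rt 2 (yf f) ^ (2 - 1) - 1 : Db f) ∈ PrimeSpectrum.asIdeal x := h'.1
      apply x.isPrime.ne_top
      rw [Ideal.eq_top_iff_one]
      have h6 : (1 : Db f) = -(((1 - rt 2 (yf f)) ^ (2 - 1) - 1) + (rt 2 (yf f) ^ (2 - 1) - 1)) := by
        rw [show 2 - 1 = 1 by rfl, pow_one, pow_one]
        ring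
      rw [h6]
      exact neg_mem (add_mem h3 h5)
    obtain ⟨z, hz⟩ := h1
    refine ⟨z, ?_⟩
    have h2 : PrimeSpectrum.comap (chart₁ f : Db f →+* D[X]) z = x' := hz
    change PrimeSpectrum.comap ((chart₂ f : Db f →ₐ[D] D[X]) : Db f →+* D[X]) z = x
    have h3 : ((chart₂ f : Db f →ₐ[D] D[X]) : Db f →+* D[X]) =
        (chart₁ f : Db f →+* D[X]).comp (inv0 f : Db f →+* Db f) := rfl
    rw [h3, PrimeSpectrum.comap_comp_apply, h2]
    change PrimeSpectrum.comap (inv0 f : Db f →+* Db f)
      (PrimeSpectrum.comap (inv0 f : Db f →+* Db f) x) = x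
    rw [← PrimeSpectrum.comap_comp_apply]
    have h4 : (inv0 f : Db f →+* Db f).comp (inv0 f : Db f →+* Db f) = RingHom.id _ :=
      congrArg (fun u : Db f →ₐ[D] Db f => (u : Db f →+* Db f)) (inv0_inv0 f)
    rw [h4]
    rfl

end chart

section cls

variable {R : Type} [CommRing R] {sep : Prop} {P : Sch R → Prop} (hP : Cls sep P) {D : Type}
  [CommRing D] [Algebra R D] [Algebra.FiniteType R D] (f : D)

include hP

/-- The double cover `t ^ 2 - t = y f` has the property `P`, if and only if the product of `f = 0`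
with the affine line has it. -/
theorem dbl_iff (hD : P (aff R D[X])) :
    P (aff R (Db f)) ↔ P (aff R (D ⧸ Ideal.span {f})[X]) :=
  ⟨fun h => hP.closed _ _ (ft_aff sep) (triple_dbl f R) h hD,
    fun h => hP.total _ _ (ft_aff sep) (triple_dbl f R) h hD⟩

end cls

end Pool.Agent.Helper62.DB
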