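import Pool.Agent.Helper62.DB.Sm
import Pool.Graph.R_pool_sql_team_seeded_ab47071d.TH376.TC.Reg

/-!
# Borel–Moore homology of the double covers `t ^ 2 - t = y f`
-/

set_option autoImplicit false

open CategoryTheory CategoryTheory.Limits AlgebraicGeometry Polynomial Pool.Agent.Helper62.EC

namespace Pool.Agent.Helper62.DB

open Pool.Agent.Y116.UV (affMap affIso affMap_comp range_affMap closed_affMap)
open Pool.Agent.TH376.TC (HMaps HProps LocTriv IsVar IsPair locTriv_prod aff_var CycleTheory)

/-- Known facts on the motivic Borel–Moore homology (higher Chow groups) `H a b X = CH_b(X, a - 2 b)` over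
a finite field: it is zero for `a < 2 b`, and the homology of a finite field is rationally zero except
in degree `a = b = 0` (Quillen). -/
structure FiniteFacts {k K : Type} [Field k] [Field K] (T : HMaps k K) : Prop where
  negative : ∀ (a b : ℤ) (X : Pool.Agent.TH376.TC.Sch k), IsVar X → a < 2 * b →
    ∀ x : T.H a b X, x = 0
  point : ∀ a b : ℤ, (a ≠ 0 ∨ b ≠ 0) → ∀ x : T.H a b (Pool.Agent.TH376.TC.aff k k), x = 0

section

variable {k : Type} [Field k] {D : Type} [CommRing D] [Algebra k D] (f : D)

/-- `f = 0` times the affine line -/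
abbrev Vl : Type := MvPolynomial (Fin 1) (D ⧸ Ideal.span {f})

/-- the closed subscheme `t = 1`, `f = 0` -/
noncomputable def cloMv : Db f →ₐ[k] Vl f :=
  (((MvPolynomial.uniqueAlgEquiv (D ⧸ Ideal.span {f}) (Fin 1)).restrictScalars k).symm :
    (D ⧸ Ideal.span {f})[X] →ₐ[k] Vl f).comp ((clo₁ f).restrictScalars k)

variable {M : ℕ} (e : D[X] ≃ₐ[k] MvPolynomial (Fin M) k)

/-- its complement -/
noncomputable def opnMv : Db f →ₐ[k] MvPolynomial (Fin M) k :=
  (e : D[X] →ₐ[k] MvPolynomial (Fin M) k).comp ((chart₁ f).restrictScalars k)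

lemma cloMv_surj : Function.Surjective (cloMv (k := k) f) := by
  intro x
  obtain ⟨y, rfl⟩ := ((MvPolynomial.uniqueAlgEquiv (D ⧸ Ideal.span {f})
    (Fin 1)).restrictScalars k).symm.surjective x
  obtain ⟨z, rfl⟩ := clo₁_surj f y
  exact ⟨z, rfl⟩

/-- the pair of immersions -/
theorem pair_dbl : IsPair (k := k) (affMap (cloMv f)) (affMap (opnMv f e)) := by
  have ht := triple_dbl f k
  have h1 : affMap (cloMv (k := k) f) = (affIso (((MvPolynomial.uniqueAlgEquiv
      (D ⧸ Ideal.span {f}) (Fin 1)).restrictScalars k).symm)).hom ≫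
      affMap ((clo₁ f).restrictScalars k) := by
    change _ = affMap _ ≫ _
    rw [← affMap_comp]
    rfl
  have h2 : affMap (opnMv f e) = (affIso e).hom ≫ affMap ((chart₁ f).restrictScalars k) := by
    change _ = affMap _ ≫ _
    rw [← affMap_comp]
    rfl
  have r1 : ∀ {X Y Z : Over (Spec (CommRingCat.of k))} (a : X ≅ Y) (b : Y ⟶ Z),
      Set.range (a.hom ≫ b).left = Set.range b.left := by
    intro X Y Z a b
    have h3 : Function.Surjective a.hom.left := by
      have : IsIso a.hom.left := inferInstance
      exact (Scheme.homeoOfIso (asIso a.hom.left)).surjective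
    rw [Over.comp_left, Scheme.Hom.comp_base, TopCat.coe_comp, h3.range_comp]
  refine ⟨closed_affMap _ (cloMv_surj f), ?_, ?_⟩
  · rw [h2, Over.comp_left]
    have h3 := ht.opened
    have h4 : IsIso (affIso e).hom.left := inferInstance
    infer_instance
  · rw [h1, h2, r1, r1]
    exact ht.compl

end

section homology

variable {k K : Type} [Field k] [Field K] {T : HMaps k K} (hT : HProps T) (hF : FiniteFacts T)
  {D : Type} [CommRing D] [Algebra k D] [Algebra.FiniteType k D] (f : D) {M : ℕ}
  (e : D[X] ≃ₐ[k] MvPolynomial (Fin M) k)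

include hT hF e

/-- The push-forward from the product of `f = 0` with the affine line to the double cover is
injective. -/
theorem push_injective (a b : ℤ) (z : T.H a b (Pool.Agent.Y116.UV.aff k (Vl f)))
    (h0 : T.push (affMap (cloMv f)) (closed_affMap _ (cloMv_surj f)) z = 0) : z = 0 := by
  have hp := pair_dbl f e
  have hvar : IsVar (Pool.Agent.Y116.UV.aff k (Db f)) := aff_var (Db f) inferInstance
  obtain ⟨y, hy⟩ := hT.exact _ _ hp hvar a b z h0
  -- the homology of the affine space
  let q : Pool.Agent.Y116.UV.aff k (MvPolynomial (Fin M) k) ⟶ Pool.Agent.TH376.TC.aff k k :=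
    affMap (IsScalarTower.toAlgHom k k (MvPolynomial (Fin M) k))
  have hq : LocTriv q.left M := locTriv_prod k M
  have hk : IsVar (Pool.Agent.TH376.TC.aff k k) := aff_var k inferInstance
  obtain ⟨x, hx⟩ := hT.surj q M hq hk (a + 1 - 2 * M) (b - M) (a + 1) b (by ring) (by ring) y
  by_cases hab : a + 1 - 2 * (M : ℤ) = 0 ∧ b - (M : ℤ) = 0
  · have hV : IsVar (Pool.Agent.Y116.UV.aff k (Vl f)) := aff_var (Vl f)
      (Algebra.FiniteType.trans (S := D ⧸ Ideal.span {f}) inferInstance inferInstance)
    exact hF.negative a b _ hV (by omega) z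
  · have h1 : x = 0 := hF.point _ _ (by omega) x
    have h2 : y = 0 := by
      rw [← hx, h1]
      exact map_zero (T.fH q M hq _ _ _ _ _ _)
    rw [← hy, h2]
    exact map_zero (T.bd _ _ hp a b)

end homology

end Pool.Agent.Helper62.DB
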