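import Pool.Agent.Helper62.DB.BM

/-!
# Injectivity of the cycle maps and the double covers `t ^ 2 - t = y f`
-/

set_option autoImplicit false

open CategoryTheory CategoryTheory.Limits AlgebraicGeometry Polynomial Pool.Agent.Helper62.EC

namespace Pool.Agent.Helper62.DB

open Pool.Agent.Y116.UV (affMap affIso affMap_comp range_affMap closed_affMap aff ft_aff)
open Pool.Agent.TH376.TC (HMaps HProps LocTriv IsVar IsPair locTriv_prod aff_var CycleTheory)

section iso

/-- isomorphisms are trivial bundles -/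
lemma locTriv_iso {D D' : Type} [CommRing D] [CommRing D'] (e : D ≃+* D') :
    LocTriv (Spec.map (CommRingCat.ofHom (e : D →+* D'))) 0 := by
  intro x
  have h0 : IsIso (CommRingCat.ofHom (e : D →+* D')) := e.toCommRingCatIso.isIso_hom
  let c : D ≃+* MvPolynomial (Fin 0) D := (MvPolynomial.isEmptyRingEquiv D (Fin 0)).symm
  have h1 : IsIso (CommRingCat.ofHom (MvPolynomial.C : D →+* MvPolynomial (Fin 0) D)) := by
    have h2 : (MvPolynomial.C : D →+* MvPolynomial (Fin 0) D) = (c : D →+* _) := by
      apply RingHom.ext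
      intro a
      exact (MvPolynomial.isEmptyRingEquiv_symm_apply D (Fin 0) a).symm
    rw [h2]
    exact c.toCommRingCatIso.isIso_hom
  have h3 : IsIso (Spec.map (CommRingCat.ofHom (e : D →+* D'))) := inferInstance
  have h4 : IsIso (Spec.map (CommRingCat.ofHom
    (MvPolynomial.C : D →+* MvPolynomial (Fin 0) D))) := inferInstance
  refine ⟨D, inferInstance, 𝟙 _, Spec.map (CommRingCat.ofHom MvPolynomial.C) ≫
    CategoryTheory.inv (Spec.map (CommRingCat.ofHom (e : D →+* D'))), inferInstance, ⟨x, rfl⟩, ?_⟩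
  exact IsPullback.of_horiz_isIso ⟨by simp⟩

end iso

section

variable {k K : Type} [Field k] [Field K] {T : CycleTheory k K}

/-- The cycle map in degree `a` and with twist `b` is injective. -/
def InjAt (T : CycleTheory k K) (a b : ℤ) (X : Pool.Agent.TH376.TC.Sch k) : Prop :=
  ∀ x : T.H a b X, T.c a b X x = 0 → x = 0

variable (hH : HProps T.toHMaps) (hT : T.Known)

include hH hT

lemma inj_iso {D D' : Type} [CommRing D] [CommRing D'] [Algebra k D] [Algebra k D']
    [Algebra.FiniteType k D] (e : D ≃ₐ[k] D') (a b : ℤ) (h : InjAt T a b (aff k D')) :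
    InjAt T a b (aff k D) := by
  intro x hx
  let q : aff k D' ⟶ aff k D := affMap (e : D →ₐ[k] D')
  have hq : LocTriv q.left 0 := locTriv_iso e.toRingEquiv
  have ha : a = a + 2 * (0 : ℕ) := by simp
  have hb : b = b + (0 : ℕ) := by simp
  exact hH.inj q 0 hq (aff_var D inferInstance) a b a b ha hb x
    (h _ (hT.pull q 0 hq a b a b ha hb x hx))

variable (hF : FiniteFacts T.toHMaps) {D : Type} [CommRing D] [Algebra k D] [Algebra.FiniteType k D]
  (f : D) {M : ℕ} (e : D[X] ≃ₐ[k] MvPolynomial (Fin M) k)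

include hF e

/-- Injectivity for the double cover implies injectivity for `f = 0`. -/
theorem inj_of_dbl (a b : ℤ) (h : InjAt T (a + 2) (b + 1) (aff k (Db f))) :
    InjAt T a b (aff k (D ⧸ Ideal.span {f})) := by
  intro x hx
  let q : aff k (Vl f) ⟶ aff k (D ⧸ Ideal.span {f}) :=
    affMap (IsScalarTower.toAlgHom k (D ⧸ Ideal.span {f}) (Vl f))
  have hq : LocTriv q.left 1 := locTriv_prod (D ⧸ Ideal.span {f}) 1
  have hv : IsVar (aff k (D ⧸ Ideal.span {f})) := aff_var _ inferInstance
  have ha : a + 2 = a + 2 * (1 : ℕ) := by simp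
  have hb : b + 1 = b + (1 : ℕ) := by simp
  have h1 := hT.pull q 1 hq a b (a + 2) (b + 1) ha hb x hx
  have h2 := hT.push (affMap (cloMv f)) (closed_affMap _ (cloMv_surj f)) _ _ _ h1
  have h3 := h _ h2
  exact hH.inj q 1 hq hv a b (a + 2) (b + 1) ha hb x (push_injective hH hF f e _ _ _ h3)

end

end Pool.Agent.Helper62.DB
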