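import Pool.Agent.Helper62.DB.Cyc

/-!
# Polynomial rings in finitely many variables
-/

set_option autoImplicit false

open Polynomial

namespace Pool.Agent.Helper62.DB

variable (k : Type) [Field k]

/-- adding one variable -/
noncomputable def addVar {D : Type} [CommRing D] [Algebra k D] {N : ℕ}
    (e : D ≃ₐ[k] MvPolynomial (Fin N) k) : D[X] ≃ₐ[k] MvPolynomial (Fin (N + 1)) k :=
  (Polynomial.mapAlgEquiv e).trans (MvPolynomial.finSuccEquiv k N).symm

/-- iterated polynomial rings -/
noncomputable def twoSets (n r : ℕ) :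
    MvPolynomial (Fin r) (MvPolynomial (Fin n) k) ≃ₐ[k] MvPolynomial (Fin (r + n)) k :=
  (MvPolynomial.sumAlgEquiv k (Fin r) (Fin n)).symm.trans
    (MvPolynomial.renameEquiv k finSumFinEquiv)

/-- quotients of isomorphic rings -/
noncomputable def quotEquiv {D D' : Type} [CommRing D] [CommRing D'] [Algebra k D] [Algebra k D']
    (e : D ≃ₐ[k] D') (f : D) : (D ⧸ Ideal.span {f}) ≃ₐ[k] (D' ⧸ Ideal.span {e f}) :=
  Ideal.quotientEquivAlg _ _ e (by
    rw [Ideal.map_span, Set.image_singleton]
    rfl)

end Pool.Agent.Helper62.DB
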