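import Pool.Agent.Helper62.DB.Dbl

/-!
# The double covers are smooth
-/

set_option autoImplicit false

open CategoryTheory AlgebraicGeometry Polynomial Pool.Agent.Y116.UV Pool.Agent.Helper62.EC

namespace Pool.Agent.Helper62.DB

lemma smooth_of_forall {X Y : Scheme.{0}} (f : X ⟶ Y)
    (hX : ∀ x, ∃ (U : Scheme.{0}) (i : U ⟶ X) (_ : IsOpenImmersion i),
      x ∈ Set.range i ∧ Smooth (i ≫ f)) : Smooth f := by
  choose U i hi hxi hs using hX
  let 𝒰 : X.OpenCover := ⟨⟨X, U, i⟩,
    ⟨by simpa using show ∀ x, ∃ j y, i j y = x from (⟨_, hxi ·⟩), by simpa using hi⟩⟩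
  exact (IsZariskiLocalAtSource.iff_of_openCover (P := @Smooth) 𝒰).2 hs

variable {R D : Type} [CommRing R] [CommRing D] [Algebra R D] (f : D)

theorem smooth_dbl (h : Smooth (aff R D[X]).hom) : Smooth (aff R (Db f)).hom := by
  apply smooth_of_forall
  intro x
  have hx : x ∈ Set.range (affMap ((chart₁ f).restrictScalars R)).left ∪
      Set.range (affMap ((chart₂ f).restrictScalars R)).left := by
    rw [cover₁₂]
    trivial
  rcases hx with hx | hx
  · refine ⟨_, (affMap ((chart₁ f).restrictScalars R)).left, open₁ f R, hx, ?_⟩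
    rw [Over.w]
    exact h
  · refine ⟨_, (affMap ((chart₂ f).restrictScalars R)).left, open₂ f R, hx, ?_⟩
    rw [Over.w]
    exact h

end Pool.Agent.Helper62.DB
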