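import Pool.Agent.Helper62.DB.Eqv
import Pool.Graph.R_pool_sql_team_seeded_1acbe0a2.Y138.UC.Conv

/-!
# Algebraic cycles on the double covers `t ^ 2 - t = y f`
-/

set_option autoImplicit false

open CategoryTheory AlgebraicGeometry Polynomial Pool.Agent.Helper62.EC

namespace Pool.Agent.Helper62.DB

open Pool.Agent.Y138.UC (Sch CycleTheory IsVariety IsComplement aff triv isAffineBundle_triv
  isVariety_aff IsHomology IsChow)

universe v

section

variable {k : Type} [Field k] {D : Type} [CommRing D] [Algebra k D] (f : D) {M : ℕ}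
  (e : D[X] ≃ₐ[k] MvPolynomial (Fin M) k)

/-- the closed immersion -/
noncomputable def cI : aff k (Vl f) ⟶ aff k (Db f) :=
  Pool.Agent.Y116.UV.affMap (cloMv (k := k) f)

/-- the open immersion -/
noncomputable def cJ : aff k (MvPolynomial (Fin M) k) ⟶ aff k (Db f) :=
  Pool.Agent.Y116.UV.affMap (opnMv f e)

lemma compl_dbl : IsComplement (cI (k := k) f) (cJ f e) :=
  ⟨(pair_dbl f e).ci, (pair_dbl f e).oi, (pair_dbl f e).compl⟩

end

section

variable {k : Type} [Field k] {F : Type v} [Field F]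

section homology

variable {H : ℤ → Pool.Agent.Y138.UC.Functor.{0, v} k F} (hH : IsHomology H) (M : ℕ)

include hH

lemma sub_aff (m n : ℤ) (h : m + 2 * (n - M) ≠ 0) :
    Subsingleton ((H m).M (aff k (MvPolynomial (Fin M) k)) n) := by
  obtain ⟨n', rfl⟩ : ∃ n', n = n' + M := ⟨n - M, by ring⟩
  have h1 := hH.pull (isAffineBundle_triv (k := k) k M) (isVariety_aff k) m n'
  have h2 := hH.point m n' (by
    intro h3
    apply h
    rw [← h3]
    ring)
  exact h1.2.subsingleton

end homology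

section chow

variable {C : Pool.Agent.Y138.UC.Functor.{0, v} k F} (hC : IsChow C) (M : ℕ)

include hC

lemma sub_chow (n : ℤ) (h : n ≠ M) :
    Subsingleton (C.M (aff k (MvPolynomial (Fin M) k)) n) := by
  obtain ⟨n', rfl⟩ : ∃ n', n = n' + M := ⟨n - M, by ring⟩
  have h1 := hC.pull (isAffineBundle_triv (k := k) k M) (isVariety_aff k) n'
  have h2 := hC.point n' (by omega)
  exact h1.subsingleton

end chow

variable {T : CycleTheory.{0, v} k F} (hT : T.IsValid) {D : Type} [CommRing D] [Algebra k D]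
  [Algebra.FiniteType k D] (f : D) {M : ℕ} (e : D[X] ≃ₐ[k] MvPolynomial (Fin M) k)

include hT e

lemma push_inj (n : ℤ) (h : IsComplement (cI (k := k) f) (cJ f e)) :
    Function.Injective ((T.H 0).push (cI (k := k) f) h.1 n) := by
  have hv : IsVariety (aff k (Db f)) := isVariety_aff _
  obtain ⟨_, δ, _, h2⟩ := hT.homology.exact hv h 0 n
  have h3 := sub_aff hT.homology M (0 + 1) n (by omega)
  rw [injective_iff_map_eq_zero]
  intro z hz
  obtain ⟨y, rfl⟩ := (h2 z).1 hz
  rw [Subsingleton.elim y 0, map_zero]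

/-- from the double cover to the closed subscheme -/
lemma alg_closed (n : ℤ) (hn : n ≠ M) (h : T.Algebraic (aff k (Db f)) n) :
    T.Algebraic (aff k (Vl f)) n := by
  intro z hz
  have hc := compl_dbl f e
  have hv : IsVariety (aff k (Db f)) := isVariety_aff _
  obtain ⟨w, hw⟩ := h ((hT.push (cI (k := k) f) hc.1 n).2 z hz)
  have h1 := sub_chow hT.chow M n hn
  obtain ⟨h2, _⟩ := hT.chow.exact hv hc n
  obtain ⟨w', rfl⟩ := (h2 w).1 (Subsingleton.elim _ _)
  rw [(hT.push (cI (k := k) f) hc.1 n).1] at hw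
  exact ⟨w', push_inj hT f e n hc hw⟩

/-- from the closed subscheme to the double cover -/
lemma alg_total (hw : T.IsWeighted) (n : ℤ) (hn : n ≠ M) (h : T.Algebraic (aff k (Vl f)) n) :
    T.Algebraic (aff k (Db f)) n := by
  intro x hx
  have hc := compl_dbl f e
  have hv : IsVariety (aff k (Db f)) := isVariety_aff _
  obtain ⟨h1, _⟩ := hT.homology.exact hv hc 0 n
  have h3 := sub_aff hT.homology M 0 n (by omega)
  obtain ⟨z, rfl⟩ := (h1 x).1 (Subsingleton.elim _ _)
  obtain ⟨ζ, rfl⟩ := h (hw.push _ hc.1 hv n (push_inj hT f e n hc) z hx)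
  exact ⟨T.C.push (cI (k := k) f) hc.1 n ζ, (hT.push (cI (k := k) f) hc.1 n).1 ζ⟩

/-- from the closed subscheme to the double cover, strict theories -/
lemma alg_strict (hs : T.IsStrict) (n : ℤ) (h : T.Algebraic (aff k (Vl f)) n) :
    T.Algebraic (aff k (Db f)) n := by
  have hc := compl_dbl f e
  have hv : IsVariety (aff k (Db f)) := isVariety_aff _
  -- the affine space
  have hU : T.Algebraic (aff k (MvPolynomial (Fin M) k)) n := by
    obtain ⟨n', rfl⟩ : ∃ n', n = n' + M := ⟨n - M, by ring⟩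
    intro y hy
    obtain ⟨y', rfl⟩ := (hT.homology.pull (isAffineBundle_triv (k := k) k M) (isVariety_aff k)
      0 n').2 y
    have h1 : ∃ ξ, T.cl (aff k k) n' ξ = y' := by
      by_cases h0 : n' = 0
      · subst h0
        exact hs.point y'
      · have h2 := hT.homology.point 0 n' (by omega)
        exact ⟨0, Subsingleton.elim _ _⟩
    obtain ⟨ξ, rfl⟩ := h1
    exact ⟨T.C.pull (triv k M) M (isAffineBundle_triv k M) n' ξ,
      (hT.pull (triv k M) M (isAffineBundle_triv k M) n').1 ξ⟩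
  intro x hx
  obtain ⟨ξ, hξ⟩ := hU ((hT.res (cJ f e) hc.2.1 n).2 x hx)
  obtain ⟨_, h2⟩ := hT.chow.exact hv hc n
  obtain ⟨η, rfl⟩ := h2 ξ
  rw [(hT.res (cJ f e) hc.2.1 n).1] at hξ
  obtain ⟨z, hz, hz'⟩ := hs.push hv hc n (x - T.cl _ n η)
    (Submodule.sub_mem _ hx (hs.cl hv n η)) (by rw [map_sub, hξ, sub_self])
  obtain ⟨ζ, rfl⟩ := h hz
  refine ⟨T.C.push (cI (k := k) f) hc.1 n ζ + η, ?_⟩
  rw [map_add, (hT.push (cI (k := k) f) hc.1 n).1, hz', sub_add_cancel]

omit e

/-- the product with the line, weighted theories -/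
lemma alg_line (hw : T.IsWeighted) (a : ℤ)
    (h : T.Algebraic (aff k (D ⧸ Ideal.span {f})) a) : T.Algebraic (aff k (Vl f)) (a + 1) := by
  intro z hz
  have hv : IsVariety (aff k (D ⧸ Ideal.span {f})) := isVariety_aff _
  have hb := isAffineBundle_triv (k := k) (D ⧸ Ideal.span {f}) 1
  obtain ⟨y, rfl⟩ := (hT.homology.pull hb hv 0 a).2 z
  obtain ⟨ξ, rfl⟩ := h (hw.pull (triv (D ⧸ Ideal.span {f}) 1) 1 hb hv a y hz)
  exact ⟨T.C.pull _ 1 hb a ξ, (hT.pull _ 1 hb a).1 ξ⟩

include e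

theorem alg_of_dbl (a : ℤ) (ha : a + 1 ≠ M) (h : T.Algebraic (aff k (Db f)) (a + 1)) :
    T.Algebraic (aff k (D ⧸ Ideal.span {f})) a :=
  hT.algebraic_of_bundle (triv (D ⧸ Ideal.span {f}) 1) (isAffineBundle_triv _ 1)
    (isVariety_aff _) (alg_closed hT f e (a + 1) ha h)

theorem dbl_of_alg (hw : T.IsWeighted) (a : ℤ) (ha : a + 1 ≠ M)
    (h : T.Algebraic (aff k (D ⧸ Ideal.span {f})) a) : T.Algebraic (aff k (Db f)) (a + 1) :=
  alg_total hT f e hw (a + 1) ha (alg_line hT f hw a h)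

theorem dbl_of_strict (hs : T.IsStrict) (a : ℤ)
    (h : T.Algebraic (aff k (D ⧸ Ideal.span {f})) a) : T.Algebraic (aff k (Db f)) (a + 1) :=
  alg_strict hT f e hs (a + 1) (alg_line hT f hs.weighted a h)

end

end Pool.Agent.Helper62.DB
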