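import Pool.Agent.Helper62.DB.Tate
import Pool.Agent.Helper62.DB.Two0

/-!
# The double covers are smooth unions of two affine spaces
-/

set_option autoImplicit false

open CategoryTheory AlgebraicGeometry Pool.Agent.Helper62.EC

namespace Pool.Agent.Helper62.DB

open Pool.Agent.Y138.UC (Sch IsOp aff)

/-- The double cover `t ^ 2 - t = y F` over `k`, for an element `F` of a polynomial ring `D`. -/
noncomputable def dblS {k D : Type} [Field k] [CommRing D] [Algebra k D] (F : D) : Sch k :=
  aff k (Db F)

/-- `X` is the union of two open subschemes which are isomorphic to the affine space of dimension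
`N`. -/
def TwoSpaces {k : Type} [Field k] (N : ℕ) (X : Sch k) : Prop :=
  ∃ j₁ j₂ : aff k (MvPolynomial (Fin N) k) ⟶ X, IsOp j₁ ∧ IsOp j₂ ∧
    Set.range j₁.left ∪ Set.range j₂.left = Set.univ

section geometry

variable {k D : Type} [Field k] [CommRing D] [Algebra k D] (F : D) {M : ℕ}
  (e : Polynomial D ≃ₐ[k] MvPolynomial (Fin M) k)

include e

lemma two_spaces : TwoSpaces M (dblS (k := k) F) := two_spaces0 F e

lemma smooth_dblS : Smooth (dblS (k := k) F).hom := smooth0 F e

end geometry

end Pool.Agent.Helper62.DB
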